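import Pool.Agent.H57.BD.Stmts

/-!
# ACY: an acyclic bipartite constraint system is solved by one comparison
-/

set_option autoImplicit false

namespace Pool.BD.ACY

/-- The constraint graph on `I ⊕ J`. -/
private def E {I J : Type} (Dom M : I → J → Prop) : I ⊕ J → I ⊕ J → Prop
  | .inl a, .inr b => Dom a b ∧ M a b
  | .inr b, .inl a => Dom a b ∧ ¬ M a b
  | _, _ => False

private def P {I J : Type} (Dom M : I → J → Prop) (a : I) : I ⊕ J → Prop
  | .inl a' => Relation.TransGen (fun a a' => ∃ b, Dom a b ∧ M a b ∧ Dom a' b ∧ ¬ M a' b) a a'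
  | .inr b => ∃ a', Relation.ReflTransGen
      (fun a a' => ∃ b, Dom a b ∧ M a b ∧ Dom a' b ∧ ¬ M a' b) a a' ∧ Dom a' b ∧ M a' b

private theorem step {I J : Type} (Dom M : I → J → Prop) (a : I) (y z : I ⊕ J)
    (h : P Dom M a y) (e : E Dom M y z) : P Dom M a z := by
  rcases y with a' | b <;> rcases z with a'' | b'
  · exact absurd e (by simp [E])
  · exact ⟨a', h.to_reflTransGen, e⟩
  · obtain ⟨a', h1, h2, h3⟩ := h
    exact Relation.TransGen.tail' h1 ⟨b, h2, h3, e.1, e.2⟩
  · exact absurd e (by simp [E])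

private theorem trans {I J : Type} (Dom M : I → J → Prop) (a : I) (y : I ⊕ J)
    (h : Relation.TransGen (E Dom M) (.inl a) y) : P Dom M a y := by
  induction h with
  | single e =>
    rename_i b
    rcases b with a'' | b'
    · exact absurd e (by simp [E])
    · exact ⟨a, Relation.ReflTransGen.refl, e⟩
  | tail _ e ih => exact step Dom M a _ _ ih e

private theorem acyc {I J : Type} (Dom M : I → J → Prop)
    (h : ∀ x : I, ¬ Relation.TransGen
      (fun a a' => ∃ b, Dom a b ∧ M a b ∧ Dom a' b ∧ ¬ M a' b) x x) (z : I ⊕ J) :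
    ¬ Relation.TransGen (E Dom M) z z := by
  intro hz
  rcases z with a | b
  · exact h a (trans Dom M a _ hz)
  · obtain ⟨y, h1, h2⟩ := Relation.TransGen.head'_iff.1 hz
    rcases y with a | b'
    · have : Relation.TransGen (E Dom M) (.inl a) (.inl a) := Relation.TransGen.tail' h2 h1
      exact h a (trans Dom M a _ this)
    · exact absurd h1 (by simp [E])

end Pool.BD.ACY

namespace Pool.BD

/-- ACY. -/
theorem acy : ACYStmt := by
  intro I J _ _ Dom M h
  have hac := ACY.acyc Dom M h
  let rk : I ⊕ J → ℕ := fun z => {w | Relation.TransGen (ACY.E Dom M) w z}.ncard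
  have hlt : ∀ z z', ACY.E Dom M z z' → rk z < rk z' := by
    intro z z' e
    refine Set.ncard_lt_ncard ?_ (Set.toFinite _)
    refine ⟨fun w hw => Relation.TransGen.tail hw e, fun hsub => ?_⟩
    exact hac z (hsub (show z ∈ {w | Relation.TransGen (ACY.E Dom M) w z'} from
      Relation.TransGen.single e))
  refine ⟨fun a => rk (.inl a), fun b => rk (.inr b), fun a b hd => ⟨fun hm => ?_, fun hl => ?_⟩⟩
  · exact hlt (.inl a) (.inr b) ⟨hd, hm⟩
  · by_contra hm
    have := hlt (.inr b) (.inl a) ⟨hd, hm⟩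
    exact absurd hl (by simp only [not_lt]; exact this.le)

end Pool.BD
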