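import Pool.Agent.H57.BD.Stmts

/-!
# BD4: bounded decisions for one part
-/

set_option autoImplicit false

namespace Pool.BD

/-- BD4. -/
theorem bd4 : BD4Stmt := by
  intro n
  refine ⟨n + 3, fun v => v ⟨n, by omega⟩ ∧
    ((¬ v ⟨n + 1, by omega⟩ ∧ ∃ i : Fin n, v ⟨i.1, by omega⟩) ∨
      (v ⟨n + 1, by omega⟩ ∧ ¬ v ⟨n + 2, by omega⟩)), ?_⟩
  intro I _ N r T lo hi hT hP
  obtain ⟨col, α, β, h⟩ := hP
  refine ⟨fun j a => if h : j.1 < n then α ⟨j.1, h⟩ a else if j.1 = n then lo a else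
      if j.1 = n + 1 then hi a else (T a).sup r,
    fun j b => if h : j.1 < n then β ⟨j.1, h⟩ b else if j.1 = n then b + 1 else b, ?_⟩
  intro a b hb
  have e1 : ∀ i : Fin n, (((if h : i.1 < n then α ⟨i.1, h⟩ a else if i.1 = n then lo a else
      if i.1 = n + 1 then hi a else (T a).sup r) <
      (if h : i.1 < n then β ⟨i.1, h⟩ b else if i.1 = n then b + 1 else b)) ↔ α i a < β i b) := by
    intro i
    simp [i.2]
  have e2 : ¬ (n + 1 < n) := by omega
  have e3 : ¬ (n + 2 < n) := by omega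
  have e4 : ¬ (n + 1 = n) := by omega
  have e5 : ¬ (n + 2 = n) := by omega
  have e6 : ¬ (n + 2 = n + 1) := by omega
  simp only [lt_irrefl, e2, e3, e4, e5, e6, dite_false, if_true, if_false, e1]
  constructor
  · rintro ⟨c, hc, h1, h2⟩
    obtain ⟨h3, h4⟩ := hT a c hc
    refine ⟨by omega, ?_⟩
    by_cases hbh : b ≤ hi a
    · left
      refine ⟨by omega, col c, ?_⟩
      exact (h (col c) a b hb (by omega) hbh).1 ⟨c, hc, rfl, h1, h2⟩
    · right
      refine ⟨by omega, ?_⟩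
      have : r c ≤ (T a).sup r := Finset.le_sup hc
      omega
  · rintro ⟨h1, h2 | h2⟩
    · obtain ⟨h3, i, h4⟩ := h2
      obtain ⟨c, hc, -, h5, h6⟩ := (h i a b hb (by omega) (by omega)).2 h4
      exact ⟨c, hc, h5, h6⟩
    · obtain ⟨h3, h4⟩ := h2
      have h5 : b ≤ (T a).sup r := by omega
      have h6 : (⊥ : ℕ) < b := by
        simp only [bot_eq_zero]
        omega
      obtain ⟨c, hc, h7⟩ := (Finset.le_sup_iff h6).1 h5
      have := hT a c hc
      exact ⟨c, hc, by omega, h7⟩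

end Pool.BD
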