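import Pool.Agent.H57.BD.Stmts

/-!
# IIT: Theorem (II_T)
-/

set_option autoImplicit false

namespace Pool.BD

/-- IIT. -/
theorem iit (hparts : PARTSStmt) (hbd4 : BD4Stmt) : IITStmt := by
  classical
  obtain ⟨K, φ, hK⟩ := hbd4 (108 * 108)
  refine ⟨4 * K, fun v => ∃ p : Fin 4, φ (fun j => v (finProdFinEquiv (p, j))), ?_⟩
  intro I _ C r N hne hstar hle hnc
  rcases isEmpty_or_nonempty I with hI | hI
  · exact ⟨fun _ _ => 0, fun _ _ => 0, fun a => (hI.false a).elim⟩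
  have := Fintype.ofFinite I
  let F : Finset (Finset ℕ) := Finset.univ.image C
  have hmem : ∀ a, C a ∈ F := fun a => Finset.mem_image_of_mem _ (Finset.mem_univ a)
  have hex : ∀ S ∈ F, ∃ a, C a = S := fun S hS => by
    obtain ⟨a, -, h⟩ := Finset.mem_image.1 hS
    exact ⟨a, h⟩
  have hexU : ∀ c ∈ F.biUnion id, ∃ a, c ∈ C a := fun c hc => by
    obtain ⟨S, hS, h⟩ := Finset.mem_biUnion.1 hc
    obtain ⟨a, rfl⟩ := hex S hS
    exact ⟨a, h⟩
  let N' : ℕ := max N ((F.biUnion id).sup (fun c => c + 1))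
  obtain ⟨T, lo, hi, h1, h2, h3⟩ := hparts F r N' ⟨_, hmem hI.some⟩
    (fun S hS => by
      obtain ⟨a, rfl⟩ := hex S hS
      exact hne a)
    (fun S hS S' hS' x hx hx' y hy hy' hxy => by
      obtain ⟨a, rfl⟩ := hex S hS
      obtain ⟨h, rfl⟩ := hex S' hS'
      exact hstar a h x hx hx' y hy hy' hxy)
    (fun c hc => by
      obtain ⟨a, ha⟩ := hexU c hc
      exact hle a c ha)
    (fun c hc c' hc' h h' => by
      obtain ⟨a, ha⟩ := hexU c hc
      obtain ⟨a', ha'⟩ := hexU c' hc'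
      exact hnc a a' c ha c' ha' h h')
    (fun c hc => by
      have : c + 1 ≤ (F.biUnion id).sup (fun c => c + 1) :=
        Finset.le_sup (f := fun c => c + 1) hc
      exact lt_of_lt_of_le (Nat.lt_succ_self c) (this.trans (le_max_right _ _)))
  have h4 := fun p => hK {S // S ∈ F} N' r (T p) (lo p) (hi p) (h2 p) (h3 p)
  choose α β h5 using h4
  refine ⟨fun j a => α (finProdFinEquiv.symm j).1 (finProdFinEquiv.symm j).2 ⟨C a, hmem a⟩,
    fun j b => β (finProdFinEquiv.symm j).1 (finProdFinEquiv.symm j).2 b, ?_⟩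
  intro a b hb
  have hb' : b < N' := lt_of_lt_of_le hb (le_max_left _ _)
  simp only [Equiv.symm_apply_apply]
  constructor
  · rintro ⟨c, hc, h6, h7⟩
    obtain ⟨p, hp⟩ := (h1 ⟨C a, hmem a⟩ c).1 hc
    exact ⟨p, (h5 p ⟨C a, hmem a⟩ b hb').1 ⟨c, hp, h6, h7⟩⟩
  · rintro ⟨p, hp⟩
    obtain ⟨c, hc, h6, h7⟩ := (h5 p ⟨C a, hmem a⟩ b hb').2 hp
    exact ⟨c, (h1 ⟨C a, hmem a⟩ c).2 ⟨p, hc⟩, h6, h7⟩

end Pool.BD
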