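import Pool.Agent.H57.BD.Stmts

/-!
# ML: merging of the depths
-/

set_option autoImplicit false

namespace Pool.BD

/-- ML. -/
theorem ml (hacy : ACYStmt) (hnst : NSTStmt) : MLStmt := by
  intro I _ N E lev r T lo hi d Q hnc hP hno hcyc
  have hshort : ∀ a₀ a₁ a₂, CRel N r T lo hi Q a₀ a₁ → CRel N r T lo hi Q a₁ a₂ → d a₀ < d a₁ →
      CRel N r T lo hi Q a₀ a₂ := by
    rintro a₀ a₁ a₂ ⟨b0, hb0, w0, ⟨c0, hc0, hQ0, h1, h2⟩, w1, -⟩
      ⟨b1, hb1, w1', ⟨c, hc, hQc, h3, h4⟩, w2, hn⟩ hd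
    have hw : lo a₀ ≤ b1 ∧ b1 ≤ hi a₀ := by
      by_contra hw
      rcases le_total b0 b1 with hle | hle
      · obtain ⟨e, he, h5, h6, h7⟩ := hP.bnd a₀ b0 b1 hle hb1 (fun h => hw (h.1 w0))
        exact hP.clean a₁ e he (by omega) (by omega) (by omega)
      · obtain ⟨e, he, h5, h6, h7⟩ := hP.bnd a₀ b1 b0 hle hb0 (fun h => hw (h.2 w0))
        exact hP.clean a₁ e he (by omega) (by omega) (by omega)
    obtain ⟨m1, m2, m3, m4⟩ := hP.mem a₀ c0 hc0
    obtain ⟨n1, n2, n3, n4⟩ := hP.mem a₁ c hc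
    have h5 : c0 < lo a₁ := by
      by_contra h
      exact hP.clean a₁ c0 m1 (by omega) (by omega) (by omega)
    have h6 : leftEnd E lev (lev c) c ≤ lo a₁ := by
      unfold leftEnd
      refine Finset.sup_le fun e he => ?_
      obtain ⟨he1, he2, he3⟩ := Finset.mem_filter.1 he
      by_contra h
      exact hP.clean a₁ e he1 (by omega) (by omega) (by omega)
    have h7 : c0 < leftEnd E lev (lev c) c := by
      have hm : c0 ∈ E.filter (fun e => lev e < lev c ∧ e < c) :=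
        Finset.mem_filter.2 ⟨m1, by omega, by omega⟩
      have : c0 + 1 ≤ (E.filter (fun e => lev e < lev c ∧ e < c)).sup (fun e => e + 1) :=
        Finset.le_sup (f := fun e => e + 1) hm
      unfold leftEnd
      omega
    have h8 : c ≤ r c0 := by
      by_contra h
      exact hno c0 m1 c n1 hQ0 hQc h7 (by omega) (by omega)
    have h9 : r c ≤ r c0 := hnc c0 m1 c n1 (by omega) h8
    exact ⟨b1, hb1, hw, ⟨c0, hc0, hQ0, by omega, by omega⟩, w2, hn⟩
  have hac := hnst I (CRel N r T lo hi Q) d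
    (fun a => by
      rintro ⟨b, hb, w, h1, w', h2⟩
      exact h2 h1) hshort hcyc
  obtain ⟨α, β, h⟩ := hacy I (Fin N) (fun a b => lo a ≤ b.1 ∧ b.1 ≤ hi a)
    (fun a b => ∃ c ∈ T a, Q c ∧ c ≤ b.1 ∧ b.1 ≤ r c) (fun x hx => hac x (by
      refine Relation.TransGen.mono ?_ _ _ hx
      rintro a a' ⟨b, h1, h2, h3, h4⟩
      exact ⟨b.1, b.2, h1, h2, h3, h4⟩))
  refine ⟨α, fun b => if h : b < N then β ⟨b, h⟩ else 0, fun a b hb h1 h2 => ?_⟩
  simp only [hb, dite_true]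
  exact h a ⟨b, hb⟩ ⟨h1, h2⟩

end Pool.BD
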