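import Pool.Agent.H57.BD.Stmts

/-!
# NST: acyclicity from depths
-/

set_option autoImplicit false

namespace Pool.BD.NST

private theorem claim {I : Type} (R : I → I → Prop) (d : I → ℕ)
    (hs : ∀ a₀ a₁ a₂, R a₀ a₁ → R a₁ a₂ → d a₀ < d a₁ → R a₀ a₂) (x y : I)
    (h : Relation.TransGen R x y) :
    ∃ z, Relation.ReflTransGen (fun a b => R a b ∧ d b ≤ d a) x z ∧ R z y := by
  induction h with
  | single e => exact ⟨x, Relation.ReflTransGen.refl, e⟩
  | @tail y' y _ e ih =>
    obtain ⟨z, h1, h2⟩ := ih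
    rcases lt_or_ge (d z) (d y') with hl | hl
    · exact ⟨z, h1, hs z y' y h2 e hl⟩
    · exact ⟨y', h1.tail ⟨h2, hl⟩, e⟩

private theorem chain {I : Type} (R : I → I → Prop) (d : I → ℕ) (x : I)
    (hx : Relation.TransGen R x x) (hmin : ∀ w, Relation.TransGen R w w → d x ≤ d w) (z : I)
    (h : Relation.ReflTransGen (fun a b => R a b ∧ d b ≤ d a) x z) :
    Relation.ReflTransGen R z x →
      Relation.ReflTransGen (fun a a' => d a = d a' ∧ R a a') x z ∧ d z = d x := by
  induction h with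
  | refl => exact fun _ => ⟨Relation.ReflTransGen.refl, rfl⟩
  | @tail y z hxy e ih =>
    intro hz
    obtain ⟨h1, h2⟩ := ih (Relation.ReflTransGen.head e.1 hz)
    have hxz : Relation.ReflTransGen R x z :=
      Relation.ReflTransGen.tail (Relation.ReflTransGen.mono (fun a b hab => hab.1) _ _ hxy) e.1
    have hzz : Relation.TransGen R z z :=
      Relation.TransGen.trans_right hz (Relation.TransGen.trans_left hx hxz)
    have h3 := hmin z hzz
    have h4 : d z = d x := le_antisymm (e.2.trans h2.le) h3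
    exact ⟨h1.tail ⟨h2.trans h4.symm, e.1⟩, h4⟩

end Pool.BD.NST

namespace Pool.BD

/-- NST. -/
theorem nst : NSTStmt := by
  intro I R d _ hs hne x hx
  classical
  have hex : ∃ n, ∃ w, Relation.TransGen R w w ∧ d w = n := ⟨d x, x, hx, rfl⟩
  obtain ⟨w, hw, hdw⟩ := Nat.find_spec hex
  have hmin : ∀ u, Relation.TransGen R u u → d w ≤ d u := by
    intro u hu
    rw [hdw]
    exact Nat.find_min' hex ⟨u, hu, rfl⟩
  obtain ⟨z, h1, h2⟩ := NST.claim R d hs w w hw
  obtain ⟨h3, h4⟩ := NST.chain R d w hw hmin z h1 (Relation.ReflTransGen.single h2)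
  exact hne w (Relation.TransGen.tail' h3 ⟨h4, h2⟩)

end Pool.BD
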