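import Pool.Agent.H57.BD.Stmts

/-!
# SEG: the segment colouring
-/

set_option autoImplicit false

namespace Pool.BD.SEG

private theorem le_leftEnd {E : Finset ℕ} {lev : ℕ → ℕ} {d c e : ℕ} (he : e ∈ E) (h1 : lev e < d)
    (h2 : e < c) : e + 1 ≤ leftEnd E lev d c := by
  unfold leftEnd
  exact Finset.le_sup (f := fun e => e + 1) (Finset.mem_filter.2 ⟨he, h1, h2⟩)

private theorem leftEnd_le (E : Finset ℕ) (lev : ℕ → ℕ) (d c : ℕ) : leftEnd E lev d c ≤ c := by
  unfold leftEnd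
  refine Finset.sup_le fun e he => ?_
  have := (Finset.mem_filter.1 he).2.2
  omega

private theorem ex_leftEnd {E : Finset ℕ} {lev : ℕ → ℕ} {d c : ℕ} (h : 0 < leftEnd E lev d c) :
    ∃ e ∈ E, lev e < d ∧ e < c ∧ leftEnd E lev d c ≤ e + 1 := by
  unfold leftEnd at h ⊢
  obtain ⟨e, he, h1⟩ := (Finset.le_sup_iff (by simpa using h)).1 (le_refl
    ((E.filter (fun e => lev e < d ∧ e < c)).sup (fun e => e + 1)))
  obtain ⟨h2, h3, h4⟩ := Finset.mem_filter.1 he
  exact ⟨e, h2, h3, h4, h1⟩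

end Pool.BD.SEG

namespace Pool.BD

/-- SEG. -/
theorem seg (hcol : COLStmt) : SEGStmt := by
  intro E lev r hr hnc
  classical
  obtain ⟨col, hc⟩ := hcol {c // c ∈ E} (fun c => leftEnd E lev (lev c.1) c.1) (fun c => c.1)
    (fun c => r c.1) (fun a b h => Subtype.ext h) (fun i => SEG.leftEnd_le E lev _ _)
    (fun i => hr i.1 i.2) (by
      rintro ⟨c, hc⟩ ⟨c', hc'⟩ h1 h2 h3
      simp only at h1 h2 h3
      obtain ⟨e, he, h4, h5, h6⟩ := SEG.ex_leftEnd (E := E) (lev := lev) (d := lev c') (c := c')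
        (by omega)
      have h7 := SEG.le_leftEnd (E := E) (lev := lev) (d := lev c') (c := c') he h4 h5
      rcases lt_or_ge (lev e) (lev c) with h8 | h8
      · have := SEG.le_leftEnd (E := E) (lev := lev) (d := lev c) (c := c) he h8 (by omega)
        omega
      · have := SEG.le_leftEnd (E := E) (lev := lev) (d := lev c') (c := c') hc (by omega) h1
        omega) (fun i j h1 h2 => hnc i.1 i.2 j.1 j.2 h1 h2)
  refine ⟨fun c => if h : c ∈ E then col ⟨c, h⟩ else 0, fun i c hcE c' hcE' hQ hQ' h1 h2 h3 => ?_⟩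
  simp only [hcE, hcE', dite_true] at hQ hQ'
  exact hc ⟨c, hcE⟩ ⟨c', hcE'⟩ h1 h2 h3 (hQ.trans hQ'.symm)

end Pool.BD
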