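import Pool.Agent.H57.BD.Stmts

/-!
# SW: transitivity of the switched order for a class without conflict
-/

set_option autoImplicit false

namespace Pool.BD

/-- SW. -/
theorem sw : SWStmt := by
  intro ι s t r Q hst htr hU hV hinj hC M lt'
  have hA : ∀ x y z, x < y → y < z → M x z → M x y ∨ M y z := by
    rintro x y z hxy hyz ⟨i, hQ, h1, h2, h3, h4⟩
    rcases lt_or_ge y (t i) with h | h
    · exact Or.inr ⟨i, hQ, by omega, h, h3, h4⟩
    · exact Or.inl ⟨i, hQ, h1, h2, h, by omega⟩
  have hB : ∀ x y z, x < y → y < z → M x y → M y z → M x z := by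
    rintro x y z hxy hyz ⟨i, hQi, h1, h2, h3, h4⟩ ⟨j, hQj, k1, k2, k3, k4⟩
    have htt : t i < t j := by omega
    by_cases hz : z ≤ r i
    · exact ⟨i, hQi, h1, h2, by omega, hz⟩
    · have h5 : r i < t j := by
        by_contra hc
        have := hV i j htt (by omega)
        omega
      have h6 : s j ≤ t i := by
        by_contra hc
        exact hC i j hQi hQj (by omega) (by omega) h5
      have h7 : s j ≤ s i := by
        by_contra hc
        exact hU i j htt (by omega) h6
      exact ⟨j, hQj, by omega, by omega, k3, k4⟩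
  have hMlt : ∀ x y, M x y → x < y := by
    rintro x y ⟨i, hQ, h1, h2, h3, h4⟩
    omega
  intro p q w hpq hqw
  rcases hpq with ⟨a1, a2⟩ | ⟨a1, a2⟩ <;> rcases hqw with ⟨b1, b2⟩ | ⟨b1, b2⟩
  · refine Or.inl ⟨by omega, fun h => ?_⟩
    rcases hA p q w a1 b1 h with h | h
    · exact a2 h
    · exact b2 h
  · -- p < q, w < q
    rcases lt_trichotomy p w with h | h | h
    · -- p < w < q, ¬ M p q, M w q
      exact Or.inl ⟨h, fun hm => a2 (hB p w q h b1 hm b2)⟩
    · subst h; exact absurd b2 a2
    · -- w < p < q, ¬ M p q, M w q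
      refine Or.inr ⟨h, ?_⟩
      rcases hA w p q h a1 b2 with h' | h'
      · exact h'
      · exact absurd h' a2
  · -- q < p, q < w
    rcases lt_trichotomy p w with h | h | h
    · -- q < p < w, M q p, ¬ M q w
      exact Or.inl ⟨h, fun hm => b2 (hB q p w a1 h a2 hm)⟩
    · subst h; exact absurd a2 b2
    · -- q < w < p, M q p, ¬ M q w
      refine Or.inr ⟨h, ?_⟩
      rcases hA q w p b1 h a2 with h' | h'
      · exact absurd h' b2
      · exact h'
  · -- w < q < p
    exact Or.inr ⟨by omega, hB w q p b1 a1 b2 a2⟩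

end Pool.BD
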